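import Pool.Agent.E8helper50.SR.S

/-!
# Project SR, piece TWO: a finite-dimensional algebra is generated by two elements modulo a
nilpotent ideal
-/

set_option autoImplicit false

universe u

namespace Pool.Agent.E8helper13.SR

open Pool.Agent.E8helper50.SR

theorem wprod_mem {K R : Type u} [Field K] [NonUnitalRing R] [Module K R]
    [IsScalarTower K R R] [SMulCommClass K R R] (I : Ideal (Unitization K R)) :
    ∀ (n : ℕ) (z : Fin (n + 1) → R), (∀ i, (Unitization.inr (z i) : Unitization K R) ∈ I) →
      (Unitization.inr (wprod n z) : Unitization K R) ∈ I ^ (n + 1)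
  | 0, z, h => by
      rw [zero_add, Submodule.pow_one]
      exact h 0
  | n + 1, z, h => by
      rw [Submodule.pow_succ]
      have h1 := wprod_mem I n (fun i => z i.castSucc) (fun i => h _)
      have h2 := Ideal.mul_mem_mul h1 (h (Fin.last (n + 1)))
      rw [← Unitization.inr_mul] at h2
      exact h2

theorem words {K R : Type u} [Field K] [NonUnitalRing R] [Module K R]
    [IsScalarTower K R R] [SMulCommClass K R R] (b : Fin 2 → R) (c : R)
    (hc : c ∈ NonUnitalAlgebra.adjoin K ({b 0, b 1} : Set R)) :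
    c ∈ Submodule.span K (Set.range (FreeSemigroup.lift b)) := by
  have h1 : c ∈ (NonUnitalAlgebra.adjoin K ({b 0, b 1} : Set R)).toSubmodule := hc
  rw [NonUnitalAlgebra.adjoin_eq_span] at h1
  refine Submodule.span_mono ?_ h1
  have h2 : Subsemigroup.closure ({b 0, b 1} : Set R) ≤ (FreeSemigroup.lift b).srange := by
    rw [Subsemigroup.closure_le]
    rintro x (rfl | rfl)
    · exact ⟨FreeSemigroup.of 0, by simp⟩
    · exact ⟨FreeSemigroup.of 1, by simp⟩
  intro x hx
  exact h2 hx

theorem t_TWO : S_MAT.{u} → S_TWO.{u} := by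
  intro hM K _ _ R _ _ _ _ _
  have hfU : Module.Finite K (Unitization K R) := 
    Module.Finite.equiv (Unitization.linearEquiv K K R).symm
  have hA : IsArtinianRing (Unitization K R) := IsArtinianRing.of_finite K _
  have hS : IsSemiprimaryRing (Unitization K R) := inferInstance
  have hss : IsSemisimpleRing (Unitization K R ⧸ Ring.jacobson (Unitization K R)) :=
    hS.isSemisimpleRing
  obtain ⟨k, hk⟩ := hS.isNilpotent
  have hfQ : Module.Finite K (Unitization K R ⧸ Ring.jacobson (Unitization K R)) :=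
    Module.Finite.of_surjective
      (Ideal.Quotient.mkₐ K (Ring.jacobson (Unitization K R))).toLinearMap
      (Ideal.Quotient.mkₐ_surjective K _)
  obtain ⟨m, d, -, ⟨e⟩⟩ := IsSemisimpleRing.exists_algEquiv_pi_matrix_of_isAlgClosed K
    (Unitization K R ⧸ Ring.jacobson (Unitization K R))
  set φ : Unitization K R →ₐ[K] (∀ i : Fin m, Matrix (Fin (d i)) (Fin (d i)) K) :=
    (e : _ →ₐ[K] _).comp (Ideal.Quotient.mkₐ K (Ring.jacobson (Unitization K R))) with hφ
  have hsurj : Function.Surjective φ :=
    e.surjective.comp (Ideal.Quotient.mkₐ_surjective K _)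
  have hker : ∀ x, φ x = 0 → x ∈ Ring.jacobson (Unitization K R) := by
    intro x hx
    have h1 : e (Ideal.Quotient.mkₐ K (Ring.jacobson (Unitization K R)) x) = 0 := hx
    rw [map_eq_zero_iff e e.injective] at h1
    exact Ideal.Quotient.eq_zero_iff_mem.1 h1
  set ψ : R →ₙₐ[K] (∀ i : Fin m, Matrix (Fin (d i)) (Fin (d i)) K) :=
    (φ : Unitization K R →ₙₐ[K] _).comp (Unitization.inrNonUnitalAlgHom K R) with hψ
  have hψa : ∀ x, ψ x = φ (Unitization.inr x) := fun x => rfl
  set I : Submodule K (∀ i : Fin m, Matrix (Fin (d i)) (Fin (d i)) K) :=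
    LinearMap.range (ψ : R →ₗ[K] _) with hI
  obtain ⟨b1, hb1, b2, hb2, hgen⟩ := hM K m d I (by
    rintro a z ⟨r, rfl⟩
    obtain ⟨u, rfl⟩ := hsurj a
    have hu : u = Unitization.inl u.fst + Unitization.inr u.snd :=
      (Unitization.inl_fst_add_inr_snd_eq u).symm
    constructor
    · refine ⟨u.fst • r + u.snd * r, ?_⟩
      show φ (Unitization.inr (u.fst • r + u.snd * r)) = φ u * φ (Unitization.inr r)
      rw [← map_mul]
      congr 1
      conv_rhs => rw [hu, add_mul, Unitization.inl_mul_inr, ← Unitization.inr_mul]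
      rw [Unitization.inr_add]
    · refine ⟨u.fst • r + r * u.snd, ?_⟩
      show φ (Unitization.inr (u.fst • r + r * u.snd)) = φ (Unitization.inr r) * φ u
      rw [← map_mul]
      congr 1
      conv_rhs => rw [hu, mul_add, Unitization.inr_mul_inl, ← Unitization.inr_mul]
      rw [Unitization.inr_add])
  obtain ⟨r1, hr1⟩ := hb1
  obtain ⟨r2, hr2⟩ := hb2
  refine ⟨![r1, r2], LinearMap.ker (ψ : R →ₗ[K] (∀ i : Fin m, Matrix (Fin (d i)) (Fin (d i)) K)), k,
    ?_, ?_, ?_⟩
  · intro a z hz
    rw [LinearMap.mem_ker] at hz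
    have hz' : ψ z = 0 := hz
    constructor
    · rw [LinearMap.mem_ker]
      show ψ (a * z) = 0
      rw [map_mul, hz', mul_zero]
    · rw [LinearMap.mem_ker]
      show ψ (z * a) = 0
      rw [map_mul, hz', zero_mul]
  · intro z hz
    have h1 := wprod_mem (Ring.jacobson (Unitization K R)) k z (fun i => hker _ (hz i))
    rw [Submodule.pow_succ, hk, zero_mul] at h1
    have h2 : (Unitization.inr (wprod k z) : Unitization K R) = 0 := by
      simpa using h1
    exact Unitization.inr_injective (by rw [h2, Unitization.inr_zero])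
  · intro x
    have h1 := hgen (ψ x) ⟨x, rfl⟩
    have h2 : ({b1, b2} : Set (∀ i : Fin m, Matrix (Fin (d i)) (Fin (d i)) K)) =
        ψ '' ({r1, r2} : Set R) := by
      rw [Set.image_pair, ← hr1, ← hr2]
      rfl
    rw [h2, ← NonUnitalAlgHom.map_adjoin] at h1
    obtain ⟨c, hc, hcx⟩ := h1
    have hc' : c ∈ Submodule.span K (Set.range (FreeSemigroup.lift ![r1, r2])) :=
      words ![r1, r2] c hc
    have hx : x = c + (x - c) := by abel
    rw [hx]
    refine Submodule.add_mem_sup hc' ?_
    rw [LinearMap.mem_ker]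
    show ψ (x - c) = 0
    rw [map_sub]
    have : ψ c = ψ x := hcx
    rw [this, sub_self]

end Pool.Agent.E8helper13.SR
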